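import Pool.Agent.helper32.QS.Spec

set_option autoImplicit false

open scoped BigOperators commutatorElement

namespace QS

lemma PRA_orb {S Ω : Type} [Group S] [Finite Ω] [MulAction S Ω] {p : ℕ} (hp : p.Prime) (x : S)
    (hx : ∀ ω : Ω, x ^ p • ω = ω) (D : Set Ω) (hD : ∀ ω ∈ D, x • ω ∈ D) (ω : Ω) (hω : ω ∈ D)
    (hne : x • ω ≠ ω) : p ≤ D.ncard := by
  set f : Ω → Ω := fun ω => x • ω with hf
  have hit : ∀ (n : ℕ) (ω : Ω), f^[n] ω = x ^ n • ω := by
    intro n
    induction n with
    | zero => intro ω; simp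
    | succ n ih =>
      intro ω
      rw [Function.iterate_succ_apply', ih, hf, pow_succ', mul_smul]
  have hper : Function.IsPeriodicPt f p ω := by
    unfold Function.IsPeriodicPt Function.IsFixedPt
    rw [hit, hx]
  have hdvd := hper.minimalPeriod_dvd
  rcases (Nat.dvd_prime hp).1 hdvd with h1 | h1
  · exfalso
    apply hne
    have h2 := Function.isPeriodicPt_minimalPeriod f ω
    rw [h1] at h2
    have h3 : f^[1] ω = ω := h2
    simpa using h3
  · have hinj := Function.iterate_injOn_Iio_minimalPeriod (f := f) (x := ω)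
    rw [h1] at hinj
    have hmem : ∀ n, f^[n] ω ∈ D := by
      intro n
      induction n with
      | zero => simpa using hω
      | succ n ih =>
        rw [Function.iterate_succ_apply']
        exact hD _ ih
    have h2 : ((fun n => f^[n] ω) '' (Set.Iio p)).ncard = p := by
      rw [Set.InjOn.ncard_image hinj]
      rw [← Nat.card_coe_set_eq]
      simp
    rw [← h2]
    apply Set.ncard_le_ncard _ (Set.toFinite _)
    rintro _ ⟨n, _, rfl⟩
    exact hmem n

theorem PRA : PRA_stmt := by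
  intro p hp h5 S Ω _ _ _ _ _ hyp
  by_cases hex : ∃ x : S, (∀ ω : Ω, x ^ p • ω = ω) ∧ ∃ ω : Ω, x • ω ≠ ω
  · have hfin : {x : S | (∀ ω : Ω, x ^ p • ω = ω) ∧ ∃ ω : Ω, x • ω ≠ ω}.Finite := Set.toFinite _
    obtain ⟨x₀, ⟨hx1, hx2⟩, hmax⟩ := Set.exists_max_image _ (fun x : S => fx Ω x) hfin hex
    obtain ⟨hF1, hF2⟩ := hyp x₀ hx1 hx2
    obtain ⟨ω₀, hω₀⟩ := hx2
    have hcard : p ≤ Nat.card Ω := by
      have := PRA_orb hp x₀ hx1 Set.univ (fun _ _ => Set.mem_univ _) ω₀ (Set.mem_univ _) hω₀
      rwa [Set.ncard_univ] at this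
    have hd : fx Ω x₀ + 1 ≤ (Set.univ : Set Ω).ncard := by
      rw [Set.ncard_univ]; omega
    obtain ⟨D, -, hDc⟩ := Set.exists_subset_card_eq hd
    refine ⟨D, ?_, ?_⟩
    · rw [hDc]
      intro h
      rcases hF2 with h0 | h0
      · rw [h0] at h; omega
      · omega
    · intro x hxp hxD ω
      by_contra hne
      have hfix : ∀ η ∈ D, x • η = η := by
        intro η hη
        by_contra hη2
        have := PRA_orb hp x hxp D hxD η hη hη2
        omega
      have h1 : D.ncard ≤ fx Ω x := by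
        unfold fx
        rw [show Nat.card {ω : Ω // x • ω = ω} = ({ω : Ω | x • ω = ω} : Set Ω).ncard from
          Nat.card_coe_set_eq _]
        exact Set.ncard_le_ncard hfix (Set.toFinite _)
      have h2 : fx Ω x ≤ fx Ω x₀ := hmax x ⟨hxp, ω, hne⟩
      omega
  · refine ⟨∅, ?_, ?_⟩
    · have := Nat.card_pos (α := Ω)
      simp
      omega
    · intro x hxp _ ω
      by_contra hne
      exact hex ⟨x, hxp, ω, hne⟩

end QS
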