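import Pool.Agent.helper4.QS.Spec

/-!
# QS: LAC1, real lacunarity
-/

namespace Pool.Agent.QS

theorem LAC1_pow {x : ℝ} (hx : 37 / 10 ≤ x) {s : ℕ} (hs : 2 ≤ s) : (1369 : ℝ) / 100 ≤ x ^ s := by
  have h1 : x ^ 2 ≤ x ^ s := pow_le_pow_right₀ (by linarith) hs
  nlinarith

/-- The lower part of a lacunary sum is small. -/
theorem LAC1_low {x : ℝ} (hx : 37 / 10 ≤ x) {s : ℕ} (hs : 2 ≤ s) (γ : ℕ → ℤ) (J : ℕ)
    (hγ : ∀ j < J, |γ j| ≤ 2) :
    |∑ j ∈ Finset.range J, (γ j : ℝ) * x ^ (s * j)| ≤ 16 / 100 * x ^ (s * J) := by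
  induction J with
  | zero => simp; norm_num
  | succ J ih =>
    have h1 := ih fun j hj => hγ j (by omega)
    have h2 := LAC1_pow hx hs
    have hZ : 0 < x ^ (s * J) := pow_pos (by linarith) _
    have h3 : x ^ (s * (J + 1)) = x ^ (s * J) * x ^ s := by
      rw [← pow_add]
      congr 1
    have h4 : |(γ J : ℝ)| ≤ 2 := by
      have := hγ J (by omega)
      exact_mod_cast this
    rw [Finset.sum_range_succ, h3]
    have h5 : |∑ j ∈ Finset.range J, (γ j : ℝ) * x ^ (s * j) + (γ J : ℝ) * x ^ (s * J)| ≤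
        16 / 100 * x ^ (s * J) + 2 * x ^ (s * J) := by
      refine (abs_add_le _ _).trans (add_le_add h1 ?_)
      rw [abs_mul, abs_of_pos hZ]
      exact mul_le_mul_of_nonneg_right h4 hZ.le
    nlinarith

theorem LAC1 : LAC1_stmt := by
  intro x hx s J hs γ hγ q hq
  induction J with
  | zero =>
    have : 0 < x ^ q := pow_pos (by linarith) _
    rw [hq] at this
    simp at this
  | succ J ih =>
    rw [Finset.sum_range_succ] at hq
    by_cases h0 : γ J = 0
    · rw [h0] at hq
      simp only [Int.cast_zero, zero_mul, add_zero] at hq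
      obtain ⟨j, hj, hj'⟩ := ih (fun j hj => hγ j (by omega)) hq
      exact ⟨j, by omega, hj'⟩
    · refine ⟨J, by omega, ?_⟩
      have hlow := LAC1_low hx hs γ J fun j hj => hγ j (by omega)
      rw [abs_le] at hlow
      have hx0 : 0 < x := by linarith
      have hZ : 0 < x ^ (s * J) := pow_pos hx0 _
      have hq0 : 0 < x ^ q := pow_pos hx0 _
      have h4 := hγ J (by omega)
      rw [abs_le] at h4
      have h5 : 1 ≤ γ J := by
        by_contra hc
        have h6 : γ J ≤ -1 := by omega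
        have h7 : (γ J : ℝ) ≤ -1 := by exact_mod_cast h6
        nlinarith [hlow.2]
      have h6 : (1 : ℝ) ≤ γ J := by exact_mod_cast h5
      have h7 : (γ J : ℝ) ≤ 2 := by exact_mod_cast h4.2
      have h8 : 84 / 100 * x ^ (s * J) ≤ x ^ q := by nlinarith [hlow.1]
      have h9 : x ^ q ≤ 216 / 100 * x ^ (s * J) := by nlinarith [hlow.2]
      rcases lt_trichotomy q (s * J) with h | h | h
      · exfalso
        have h10 : x ^ (q + 1) ≤ x ^ (s * J) := pow_le_pow_right₀ (by linarith) (by omega)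
        rw [pow_succ] at h10
        nlinarith
      · exact h
      · exfalso
        have h10 : x ^ (s * J + 1) ≤ x ^ q := pow_le_pow_right₀ (by linarith) (by omega)
        rw [pow_succ] at h10
        nlinarith

end Pool.Agent.QS
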