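import Pool.Agent.helper4.QS.Spec

/-!
# QS: LUQ, the quadratic relation of the Lucas sequence
-/

namespace Pool.Agent.QS

theorem LUQ_two (t : ℤ) (k : ℕ) : lu t (k + 2) = t * lu t (k + 1) - lu t k := rfl

theorem LUQ : LUQ_stmt := by
  intro t k
  induction k with
  | zero => simp [lu]
  | succ k ih =>
    rw [show k + 1 + 1 = k + 2 from rfl, LUQ_two]
    linear_combination ih

end Pool.Agent.QS
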