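import Pool.Agent.helper4.QS.Spec
import Pool.Agent.helper46.CM.CON1

/-!
# QS: REPN, the operators `TT` represent the Weyl relations of `hN N`
-/

namespace Pool.Agent.QS

open Pool.Agent.helper86.CM

theorem REPN : REPN_stmt := by
  intro N _
  exact ⟨fun x y v => CON1_mul x y v, fun v => CON1_zero v, fun x v => CON1_norm x v⟩

end Pool.Agent.QS
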